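import Pool.Agent.Helper70.MM.Goals3

open Real

namespace Pool.Agent.Helper3.CU

lemma key_exp {y : ℝ} (hy0 : 0 < y) (hy : 15 ≤ y ^ 2) :
    Real.exp 1 * y ^ 2 ≤ 1.1025 * Real.exp (14 / 15 * y) := by
  have h1 : Real.exp (0.0975 : ℝ) ≤ 1.1025 := by
    have := Real.exp_bound' (x := (0.0975 : ℝ)) (by norm_num) (by norm_num) (n := 4) (by norm_num)
    refine this.trans ?_
    simp [Finset.sum_range_succ, Nat.factorial]
    norm_num
  have hl2 : Real.log 2 < 0.6931471808 := Real.log_two_lt_d9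
  have h15 : Real.log 15 ≤ 2.7101 := by
    have e : Real.log 15 = 4 * Real.log 2 + Real.log (15 / 16) := by
      rw [show (4 : ℝ) * Real.log 2 = Real.log (2 ^ 4) by rw [Real.log_pow]; norm_num,
        ← Real.log_mul (by norm_num) (by norm_num)]
      norm_num
    have e2 : Real.log (15 / 16) ≤ 15 / 16 - 1 := Real.log_le_sub_one_of_pos (by norm_num)
    rw [e]; linarith
  set w := Real.sqrt 15 with hw
  have hw2 : w ^ 2 = 15 := Real.sq_sqrt (by norm_num)
  have hw0 : 0 < w := Real.sqrt_pos.mpr (by norm_num)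
  have hw1 : 3.8729 ≤ w := Real.le_sqrt_of_sq_le (by norm_num)
  have hr1 : 1 ≤ y / w := by
    rw [le_div_iff₀ hw0, one_mul]
    exact Real.sqrt_le_iff.mpr ⟨hy0.le, hy⟩
  have hlog : 2 * Real.log y ≤ 2 * (y / w - 1) + 2.7101 := by
    have e : Real.log y = Real.log (y / w) + Real.log w := by
      rw [← Real.log_mul (by positivity) (by positivity)]
      congr 1; field_simp
    have e2 : Real.log w = Real.log 15 / 2 := by
      rw [hw, Real.log_sqrt (by norm_num)]
    have e3 : Real.log (y / w) ≤ y / w - 1 := Real.log_le_sub_one_of_pos (by positivity)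
    rw [e, e2]; linarith
  have hlin : 1 + 2 * Real.log y ≤ 0.0975 + 14 / 15 * y := by
    have e : y = w * (y / w) := by field_simp
    have e2 : 3.8729 * (y / w) ≤ y := by
      conv_rhs => rw [e]
      gcongr
    linarith
  have hy2 : y ^ 2 = Real.exp (2 * Real.log y) := by
    rw [show (2 : ℝ) * Real.log y = Real.log (y ^ 2) by rw [Real.log_pow]; norm_num,
      Real.exp_log (by positivity)]
  rw [hy2, ← Real.exp_add]
  calc Real.exp (1 + 2 * Real.log y) ≤ Real.exp (0.0975 + 14 / 15 * y) :=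
        Real.exp_le_exp.mpr hlin
    _ = Real.exp 0.0975 * Real.exp (14 / 15 * y) := Real.exp_add _ _
    _ ≤ _ := by gcongr

theorem bad {N j : ℕ} {l : ℝ} (hl : 0 < l) (hN : 1.1025 * (N : ℝ) ≤ l ^ 2) (hj : 1 ≤ j)
    (hj2 : 15 * (j : ℝ) ≤ l ^ 2) :
    (N.choose j : ℝ) * (Real.exp (-(l * Real.sqrt j)) / Real.sqrt j) ≤ Real.exp (-(l / 15)) := by
  have hjr : (1 : ℝ) ≤ j := by exact_mod_cast hj
  have hj0 : (0 : ℝ) < j := by linarith
  set s := Real.sqrt (j : ℝ) with hs
  have hs2 : s ^ 2 = j := Real.sq_sqrt hj0.le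
  have hs1 : 1 ≤ s := Real.one_le_sqrt.mpr hjr
  have hs0 : 0 < s := by linarith
  have hk := key_exp (y := l / s) (by positivity) (by
    rw [div_pow, hs2, le_div_iff₀ hj0]; exact hj2)
  have hbase : (N : ℝ) * Real.exp 1 / j ≤ Real.exp (14 / 15 * (l / s)) := by
    rw [div_pow, hs2] at hk
    have e : 1.1025 * ((N : ℝ) * Real.exp 1 / j) ≤ Real.exp 1 * (l ^ 2 / j) := by
      calc 1.1025 * ((N : ℝ) * Real.exp 1 / j) = Real.exp 1 * ((1.1025 * (N : ℝ)) / j) := by ring
        _ ≤ Real.exp 1 * (l ^ 2 / j) := by gcongr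
    linarith
  have hch : (N.choose j : ℝ) ≤ ((N : ℝ) * Real.exp 1 / j) ^ j := by
    have h1 : (N.choose j : ℝ) ≤ (N : ℝ) ^ j / (j.factorial : ℝ) := Nat.choose_le_pow_div j N
    have h2 : (j : ℝ) ^ j / (j.factorial : ℝ) ≤ Real.exp j :=
      Real.pow_div_factorial_le_exp _ hj0.le j
    have hf : (0 : ℝ) < (j.factorial : ℝ) := by positivity
    have h3 : (j : ℝ) ^ j ≤ Real.exp j * (j.factorial : ℝ) := (div_le_iff₀ hf).mp h2
    have h4 : Real.exp (1 : ℝ) ^ j = Real.exp j := by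
      rw [← Real.exp_nat_mul, mul_one]
    refine h1.trans ?_
    rw [div_pow, mul_pow, h4, div_le_div_iff₀ hf (by positivity)]
    calc (N : ℝ) ^ j * (j : ℝ) ^ j ≤ (N : ℝ) ^ j * (Real.exp j * (j.factorial : ℝ)) := by gcongr
      _ = _ := by ring
  have hch2 : (N.choose j : ℝ) ≤ Real.exp (14 / 15 * (l * s)) := by
    refine hch.trans ?_
    calc ((N : ℝ) * Real.exp 1 / j) ^ j ≤ Real.exp (14 / 15 * (l / s)) ^ j := by gcongr
      _ = Real.exp (14 / 15 * (l * s)) := by
        rw [← Real.exp_nat_mul]; congr 1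
        rw [← hs2]; field_simp
  have hdiv : Real.exp (-(l * s)) / s ≤ Real.exp (-(l * s)) :=
    div_le_self (Real.exp_pos _).le hs1
  calc (N.choose j : ℝ) * (Real.exp (-(l * s)) / s)
      ≤ Real.exp (14 / 15 * (l * s)) * Real.exp (-(l * s)) := by gcongr
    _ = Real.exp (-(l * s / 15)) := by rw [← Real.exp_add]; congr 1; ring
    _ ≤ Real.exp (-(l / 15)) := by
      apply Real.exp_le_exp.mpr
      have : l ≤ l * s := le_mul_of_one_le_right hl.le hs1
      linarith

end Pool.Agent.Helper3.CU
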