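import Pool.Agent.Helper70.MM.Goals3

open Real

namespace Pool.Agent.Helper3.CU

lemma choose_step (k : ℕ) :
    (4 * (k + 1)).choose (k + 1) * ((k + 1) * (3 * k + 3) * (3 * k + 2) * (3 * k + 1)) =
      (4 * k).choose k * ((4 * k + 4) * (4 * k + 3) * (4 * k + 2) * (4 * k + 1)) := by
  have h1 : (4 * k).choose k * (4 * k + 1) = (4 * k + 1).choose k * (3 * k + 1) := by
    have := Nat.choose_mul_succ_eq (4 * k) k
    rw [this]; congr 1; omega
  have h2 : (4 * k + 1).choose k * (4 * k + 2) = (4 * k + 2).choose k * (3 * k + 2) := by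
    have := Nat.choose_mul_succ_eq (4 * k + 1) k
    rw [this]; congr 1; omega
  have h3 : (4 * k + 2).choose k * (4 * k + 3) = (4 * k + 3).choose k * (3 * k + 3) := by
    have := Nat.choose_mul_succ_eq (4 * k + 2) k
    rw [this]; congr 1; omega
  have h4 : (4 * k + 4) * (4 * k + 3).choose k = (4 * (k + 1)).choose (k + 1) * (k + 1) := by
    exact Nat.add_one_mul_choose_eq (4 * k + 3) k
  calc (4 * (k + 1)).choose (k + 1) * ((k + 1) * (3 * k + 3) * (3 * k + 2) * (3 * k + 1))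
      = ((4 * (k + 1)).choose (k + 1) * (k + 1)) * (3 * k + 3) * (3 * k + 2) * (3 * k + 1) := by
        ring
    _ = ((4 * k + 4) * (4 * k + 3).choose k) * (3 * k + 3) * (3 * k + 2) * (3 * k + 1) := by
        rw [h4]
    _ = (4 * k + 4) * ((4 * k + 3).choose k * (3 * k + 3)) * (3 * k + 2) * (3 * k + 1) := by ring
    _ = (4 * k + 4) * ((4 * k + 2).choose k * (4 * k + 3)) * (3 * k + 2) * (3 * k + 1) := by
        rw [h3]
    _ = (4 * k + 4) * (4 * k + 3) * ((4 * k + 2).choose k * (3 * k + 2)) * (3 * k + 1) := by ring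
    _ = (4 * k + 4) * (4 * k + 3) * ((4 * k + 1).choose k * (4 * k + 2)) * (3 * k + 1) := by
        rw [h2]
    _ = (4 * k + 4) * (4 * k + 3) * (4 * k + 2) * ((4 * k + 1).choose k * (3 * k + 1)) := by ring
    _ = (4 * k + 4) * (4 * k + 3) * (4 * k + 2) * ((4 * k).choose k * (4 * k + 1)) := by rw [h1]
    _ = _ := by ring

lemma choose_lower (k : ℕ) (hk : 4 ≤ k) : (17 / 2 : ℝ) ^ k ≤ 3 * ((4 * k).choose k : ℝ) := by
  induction k, hk using Nat.le_induction with
  | base =>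
    have : (4 * 4).choose 4 = 1820 := by decide
    rw [this]; norm_num
  | succ k hk ih =>
    have hs : (((4 * (k + 1)).choose (k + 1) : ℕ) : ℝ) *
        (((k : ℝ) + 1) * (3 * k + 3) * (3 * k + 2) * (3 * k + 1)) =
      ((4 * k).choose k : ℝ) * ((4 * k + 4) * (4 * k + 3) * (4 * k + 2) * (4 * k + 1)) := by
      exact_mod_cast choose_step k
    have hk' : (4 : ℝ) ≤ k := by exact_mod_cast hk
    set C := (((4 * (k + 1)).choose (k + 1) : ℕ) : ℝ) with hC
    set D := ((4 * k).choose k : ℝ) with hD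
    have hD0 : 0 ≤ D := by positivity
    have hP : 0 < ((k : ℝ) + 1) * (3 * k + 3) * (3 * k + 2) * (3 * k + 1) := by positivity
    have hR : (17 / 2 : ℝ) * (((k : ℝ) + 1) * (3 * k + 3) * (3 * k + 2) * (3 * k + 1)) ≤
        (4 * k + 4) * (4 * k + 3) * (4 * k + 2) * (4 * k + 1) := by
      have e : (4 * (k : ℝ) + 4) * (4 * k + 3) * (4 * k + 2) * (4 * k + 1) -
          (17 / 2 : ℝ) * (((k : ℝ) + 1) * (3 * k + 3) * (3 * k + 2) * (3 * k + 1)) =
          ((k : ℝ) + 1) * (53 / 2 * k ^ 3 - 75 * k ^ 2 - 209 / 2 * k - 27) := by ring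
      have e2 : 0 ≤ (53 / 2 * (k : ℝ) ^ 3 - 75 * k ^ 2 - 209 / 2 * k - 27) := by
        have : (53 / 2 * (k : ℝ) ^ 3 - 75 * k ^ 2 - 209 / 2 * k - 27) =
            53 / 2 * (k - 4) ^ 3 + 243 * (k - 4) ^ 2 + 1135 / 2 * (k - 4) + 51 := by ring
        rw [this]
        have h4 : 0 ≤ (k : ℝ) - 4 := by linarith
        positivity
      have e3 : 0 ≤ ((k : ℝ) + 1) * (53 / 2 * k ^ 3 - 75 * k ^ 2 - 209 / 2 * k - 27) := by
        positivity
      linarith
    have h5 : (17 / 2 : ℝ) * D ≤ C := by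
      have : (17 / 2 : ℝ) * D * (((k : ℝ) + 1) * (3 * k + 3) * (3 * k + 2) * (3 * k + 1)) ≤
          C * (((k : ℝ) + 1) * (3 * k + 3) * (3 * k + 2) * (3 * k + 1)) := by
        rw [hs]
        calc (17 / 2 : ℝ) * D * (((k : ℝ) + 1) * (3 * k + 3) * (3 * k + 2) * (3 * k + 1))
            = D * ((17 / 2 : ℝ) * (((k : ℝ) + 1) * (3 * k + 3) * (3 * k + 2) * (3 * k + 1))) := by
              ring
          _ ≤ _ := mul_le_mul_of_nonneg_left hR hD0
      exact le_of_mul_le_mul_right this hP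
    calc (17 / 2 : ℝ) ^ (k + 1) = (17 / 2) * (17 / 2 : ℝ) ^ k := by ring
      _ ≤ (17 / 2) * (3 * D) := by gcongr
      _ = 3 * ((17 / 2) * D) := by ring
      _ ≤ 3 * C := by gcongr

lemma exp_214 : Real.exp (2.14 : ℝ) ≤ 17 / 2 := by
  have h1 : Real.exp 1 < 2.7182818286 := Real.exp_one_lt_d9
  have h0 : 0 < Real.exp 1 := Real.exp_pos 1
  have h2 : Real.exp (0.14 : ℝ) ≤ 1.1503 := by
    have := Real.exp_bound' (x := (0.14 : ℝ)) (by norm_num) (by norm_num) (n := 4) (by norm_num)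
    refine this.trans ?_
    simp [Finset.sum_range_succ, Nat.factorial]
    norm_num
  have h3 : Real.exp (2.14 : ℝ) = Real.exp 1 * Real.exp 1 * Real.exp 0.14 := by
    rw [← Real.exp_add, ← Real.exp_add]; norm_num
  rw [h3]
  calc Real.exp 1 * Real.exp 1 * Real.exp 0.14 ≤ 2.7182818286 * 2.7182818286 * 1.1503 := by
        gcongr
    _ ≤ 17 / 2 := by norm_num

theorem lower (n : ℕ) (l : ℝ) (hn : 1000 ≤ n) (_hl : 0 < l) (h : l ^ 2 ≤ 1.1025 * (n + 1)) :
    1 ≤ Pool.Agent.Helper70.MM.sl n l := by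
  set k := (n - 1) / 4 with hk
  have hk1 : 249 ≤ k := by omega
  have hk2 : 4 * k ≤ n - 1 := by omega
  have hk3 : n ≤ 4 * k + 4 := by omega
  have hkr : (249 : ℝ) ≤ k := by exact_mod_cast hk1
  have hn3 : (n : ℝ) ≤ 4 * k + 4 := by exact_mod_cast hk3
  have hsq : 0 < Real.sqrt ((k : ℝ) + 1) := Real.sqrt_pos.mpr (by positivity)
  have hterm : ((n - 1).choose k : ℝ) *
      (Real.exp (-(Real.sqrt (k + 1) * l)) / Real.sqrt (k + 1)) ≤
      Pool.Agent.Helper70.MM.sl n l := by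
    unfold Pool.Agent.Helper70.MM.sl
    exact Finset.single_le_sum (f := fun m : ℕ => ((n - 1).choose m : ℝ) *
      (Real.exp (-(Real.sqrt (m + 1) * l)) / Real.sqrt (m + 1)))
      (fun i _ => by positivity) (Finset.mem_range.mpr (by omega))
  refine le_trans ?_ hterm
  have hA : Real.sqrt ((k : ℝ) + 1) * l ≤ 2.1 * k + 2.37 := by
    have h2 : (Real.sqrt ((k : ℝ) + 1) * l) ^ 2 ≤ (2.1 * k + 2.37) ^ 2 := by
      rw [mul_pow, Real.sq_sqrt (by positivity)]
      have h3 : l ^ 2 ≤ 1.1025 * (4 * k + 5) := by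
        refine h.trans ?_
        have : (n : ℝ) + 1 ≤ 4 * k + 5 := by linarith
        nlinarith
      calc ((k : ℝ) + 1) * l ^ 2 ≤ (k + 1) * (1.1025 * (4 * k + 5)) := by gcongr
        _ ≤ (2.1 * k + 2.37) ^ 2 := by nlinarith
    exact (abs_le_of_sq_le_sq' h2 (by positivity)).2
  have hch : (17 / 2 : ℝ) ^ k ≤ 3 * ((n - 1).choose k : ℝ) := by
    refine (choose_lower k (by omega)).trans ?_
    have : (4 * k).choose k ≤ (n - 1).choose k := Nat.choose_le_choose k hk2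
    have : ((4 * k).choose k : ℝ) ≤ ((n - 1).choose k : ℝ) := by exact_mod_cast this
    linarith
  have hexp : Real.exp (2.14 * k) ≤ (17 / 2 : ℝ) ^ k := by
    have : Real.exp (2.14 * k) = Real.exp 2.14 ^ k := by
      rw [← Real.exp_nat_mul]; ring_nf
    rw [this]
    exact pow_le_pow_left₀ (Real.exp_pos _).le exp_214 k
  have hfin : 3 * Real.sqrt ((k : ℝ) + 1) ≤ Real.exp (0.04 * k - 2.37) := by
    have h8 : (2250 : ℝ) ≤ Real.exp 15.18 := by
      have h1 : (2.7182818283 : ℝ) < Real.exp 1 := Real.exp_one_gt_d9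
      have h2 : Real.exp 1 ^ 8 = Real.exp 8 := by
        rw [← Real.exp_nat_mul]; norm_num
      calc (2250 : ℝ) ≤ (2.7182818283 : ℝ) ^ 8 := by norm_num
        _ ≤ Real.exp 1 ^ 8 := by gcongr
        _ = Real.exp 8 := h2
        _ ≤ Real.exp 15.18 := Real.exp_le_exp.mpr (by norm_num)
    have h9 : Real.exp (0.04 * k - 2.37) ^ 2 = Real.exp 15.18 * Real.exp (0.08 * (k - 249)) := by
      rw [← Real.exp_nat_mul, ← Real.exp_add]; congr 1; push_cast; ring
    have h10 : 0.08 * ((k : ℝ) - 249) + 1 ≤ Real.exp (0.08 * (k - 249)) := Real.add_one_le_exp _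
    have h11 : (3 * Real.sqrt ((k : ℝ) + 1)) ^ 2 ≤ Real.exp (0.04 * k - 2.37) ^ 2 := by
      rw [h9, mul_pow, Real.sq_sqrt (by positivity)]
      have ht : 0 ≤ (k : ℝ) - 249 := by linarith
      calc (3 : ℝ) ^ 2 * ((k : ℝ) + 1) ≤ 2250 * (0.08 * ((k : ℝ) - 249) + 1) := by nlinarith
        _ ≤ Real.exp 15.18 * Real.exp (0.08 * (k - 249)) := by
          gcongr
    exact (abs_le_of_sq_le_sq' h11 (Real.exp_pos _).le).2
  have hC : Real.exp (2.14 * k) / 3 ≤ ((n - 1).choose k : ℝ) := by linarith [hexp.trans hch]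
  have hE : Real.exp (-(2.1 * k + 2.37)) ≤ Real.exp (-(Real.sqrt ((k : ℝ) + 1) * l)) :=
    Real.exp_le_exp.mpr (by linarith)
  calc (1 : ℝ) ≤ Real.exp (0.04 * k - 2.37) / (3 * Real.sqrt ((k : ℝ) + 1)) := by
        rw [le_div_iff₀ (by positivity)]; linarith
    _ = Real.exp (2.14 * k) / 3 * (Real.exp (-(2.1 * k + 2.37)) / Real.sqrt ((k : ℝ) + 1)) := by
        rw [div_mul_div_comm, ← Real.exp_add]; congr 2; ring
    _ ≤ _ := by gcongr

end Pool.Agent.Helper3.CU
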